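import Pool.Agent.TwwSep.Defs
import Pool.Agent.TwwSep.Tww

/-!
# Graphs of twin-width at most 3 have balanced separators dominated by 22 vertices

Positive answer to Q1 of MP_84399c_co, with the explicit constant 22.

Outline.  Follow a 3-sequence from the coarsest to the finest partition and stop splitting a part
as soon as it has a black neighbour.  The resulting classes are each contained in the
neighbourhood of a single vertex.  Read backwards, the quotient graph `H` of `G` by these classes is
reduced to one vertex by identifications each of which creates a vertex of degree at most 3.
The existence of two disjoint cycles that cannot be separated by three vertices is preserved by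
such identifications, so `H` has no such pair of cycles.  Finally, if no 22 classes formed a
balanced separator of `H`, the big components would form a haven of order 23, and a haven of order
23 yields a path with 12 exits, and by Menger's theorem two disjoint cycles that cannot be
separated by three vertices.
-/

namespace Pool.Agent.Results.MP_84399c_co.DominatedSeparators

open TwwSep

/-- Every finite graph of twin-width at most 3 has a set `X` of at most 22 vertices and a balanced
separator contained in the closed neighbourhood of `X`. -/
theorem result {V : Type*} [Fintype V] [DecidableEq V] (G : SimpleGraph V)
    (h : TwinWidthLE G 3) :
    ∃ X : Finset V, X.card ≤ 22 ∧ ∃ S : Set V, S ⊆ closedNbhd G X ∧ IsBalancedSeparator G S := by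
  obtain ⟨X, hX, hS⟩ := main G h
  exact ⟨X, hX, closedNbhd G X, subset_rfl, hS⟩

end Pool.Agent.Results.MP_84399c_co.DominatedSeparators
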